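import Pool.Agent.Helper43.Gx.Goals
import Pool.Agent.Lead.RwMain

/-! MP_d3128a_ag, packet X9: all systems of degree at least `28 m_1 ^ 2`. -/

set_option autoImplicit false

namespace Pool.Agent.Helper43.Gx.PkX9

open Finset Pool.Agent.Lead.Sh
open Pool.Agent.Helper43.Gm (st mv nn SS Run Pri)
open Pool.Agent.Helper43.Gm.PkE (KK ek ex)
open Pool.Agent.Helper43.Ah (pat Good)
open Helper18.Cusp (Concl Red kap rr)

/-- the degree-`d` triangle is good for the multiplicity `M` if `d ≥ 28 M²` -/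
theorem good_tri (h8 : GoalX8) (M d : ℕ) (hM : 1 ≤ M) (hd : 28 * M ^ 2 ≤ d) :
    Good M (triD 0 d) := by
  have hM1 : M ≤ M ^ 2 := by nlinarith
  have hch : (M + 1).choose 2 ≤ M ^ 2 := by
    rw [Nat.choose_two_right, Nat.add_sub_cancel]
    have : (M + 1) * M ≤ 2 * M ^ 2 := by nlinarith
    omega
  refine h8 M 0 (d + 1) (fun y => d + 1 - y) (triD 0 d) hM ?_ ?_ ?_ ?_ ?_ ?_ ?_ ?_ ?_
  · intro c
    rw [mem_triD]
    omega
  · omega
  · omega
  · intro y hy
    omega
  · intro y hy
    left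
    omega
  · intro y hy
    omega
  · intro y hy
    omega
  · intro y hy
    omega
  · rw [card_triD]
    have h1 : 2 * (d + 2).choose 2 = (d + 2) * (d + 1) := by
      rw [Nat.choose_two_right, show d + 2 - 1 = d + 1 by omega]
      have h2 : Even ((d + 2) * (d + 1)) := by
        rw [mul_comm]
        exact Nat.even_mul_succ_self (d + 1)
      exact Nat.two_mul_div_two_of_even h2
    have h3 : M * (3 * M + 1) ≤ 4 * M ^ 2 := by nlinarith
    have h4 : M * (3 * M + 1) * (d + 2) ≤ 4 * M ^ 2 * (d + 2) := Nat.mul_le_mul_right _ h3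
    have h5 : 2 * (4 * M ^ 2 * (d + 2) + M ^ 2) ≤ (d + 2) * (d + 1) := by
      have h6 : 28 * M ^ 2 * (d + 2) ≤ (d + 2) * d := by nlinarith
      nlinarith
    show M * (3 * M + 1) * (d + 1 - 0 + 1) + (M + 1).choose 2 ≤ (d + 2).choose 2
    have e1 : d + 1 - 0 + 1 = d + 2 := by omega
    rw [e1]
    omega

theorem goalX9 (h8 : GoalX8) : GoalX9 := by
  intro s m d hm _ hd
  refine Pool.Agent.Lead.Rw.concl s m d ?_
  rcases Nat.eq_zero_or_pos (m 0) with h0 | h0
  · have hz : ∀ k, m k = 0 := fun k => Nat.le_zero.1 (h0 ▸ hm (Nat.zero_le k))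
    left
    constructor
    · rw [sum_eq_zero (fun i _ => by rw [hz i]; rfl)]
      exact Nat.zero_le _
    · have : rows m (range s) = ∅ := by
        ext r
        rw [mem_rows, hz]
        simp
      rw [this]
      exact ind_empty _
  · have hg := good_tri h8 (m 0) d h0 hd (range s) m (fun k _ => hm (Nat.zero_le k))
    rw [card_triD] at hg
    rcases le_total (∑ i ∈ range s, Nat.choose (m i + 1) 2) (Nat.choose (d + 2) 2) with h | h
    · exact Or.inl ⟨h, hg.2 h⟩
    · exact Or.inr ⟨h, hg.1 h⟩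

end Pool.Agent.Helper43.Gx.PkX9
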